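import Mathlib

/-!
# Distance-`t` colouring of graphs without a cycle of length `ℓ` (MP_aff989_co): definitions
-/

set_option autoImplicit false

namespace Pool.Agent.DCI

/-- The `t`-th power of `G`: distinct vertices at distance at most `t` in `G` are adjacent
(`edist` is the distance, `∞` for vertices in different components). -/
def power {V : Type} (G : SimpleGraph V) (t : ℕ) : SimpleGraph V where
  Adj u v := u ≠ v ∧ G.edist u v ≤ t
  symm := ⟨fun _ _ h => ⟨h.1.symm, by rw [SimpleGraph.edist_comm]; exact h.2⟩⟩
  loopless := ⟨fun _ h => h.1 rfl⟩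

/-- The distance-`t` chromatic number of `G`. -/
noncomputable def chi {V : Type} (t : ℕ) (G : SimpleGraph V) : ℕ∞ := (power G t).chromaticNumber

/-- `χ_t(d, ℓ)`: the supremum of the distance-`t` chromatic numbers of the finite graphs of maximum
degree at most `d` without a cycle of length `ℓ`. -/
noncomputable def chiSup (t d ℓ : ℕ) : ℕ∞ :=
  ⨆ (n : ℕ) (G : SimpleGraph (Fin n)) (_ : ∀ v, (G.neighborSet v).ncard ≤ d)
    (_ : ¬ ∃ (v : Fin n) (p : G.Walk v v), p.IsCycle ∧ p.length = ℓ), chi t G

end Pool.Agent.DCI
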