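import Pool.Agent.Lib_helper3.DCI.Defs
import Pool.Agent.Lib_helper90.DC.Dense
import Pool.Agent.Lib_helper90.DC.Upper
import Pool.Agent.Lib_helper90.DC.Lower

/-!
# The critical odd cycle length is `3 t`
-/

set_option autoImplicit false

namespace Pool.Agent.DCI

open Filter Asymptotics Pool.Agent.H90.DC

theorem edist_le_iff {V : Type} (G : SimpleGraph V) (u v : V) (t : ℕ) :
    G.edist u v ≤ t ↔ ∃ p : G.Walk u v, p.length ≤ t := by
  constructor
  · intro h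
    have h1 : G.edist u v ≠ ⊤ := fun h2 => by
      rw [h2, top_le_iff] at h
      exact ENat.natCast_ne_top t h
    obtain ⟨p, hp⟩ := SimpleGraph.exists_walk_of_edist_ne_top h1
    refine ⟨p, ?_⟩
    rw [← hp] at h
    exact_mod_cast h
  · rintro ⟨p, hp⟩
    exact (SimpleGraph.edist_le p).trans (by exact_mod_cast hp)

theorem power_eq {V : Type} (G : SimpleGraph V) (t : ℕ) : power G t = Pw G t := by
  ext u v
  rw [pw_adj, ← edist_le_iff]
  rfl

theorem chi_le {t ℓ d : ℕ} {B : ℝ} (h : UpperGood t ℓ d B) : chiSup t d ℓ ≤ (⌊B⌋₊ : ℕ) := by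
  unfold chiSup
  refine iSup_le fun n => iSup_le fun G => iSup_le fun h1 => iSup_le fun h2 => ?_
  unfold chi
  rw [power_eq]
  exact (h n G h1 h2).chromaticNumber_le

theorem chi_mono (t ℓ : ℕ) {d d' : ℕ} (h : d ≤ d') : chiSup t d ℓ ≤ chiSup t d' ℓ := by
  unfold chiSup
  refine iSup_le fun n => iSup_le fun G => iSup_le fun h1 => iSup_le fun h2 => ?_
  exact le_iSup_of_le n (le_iSup_of_le G (le_iSup_of_le (fun v => (h1 v).trans h)
    (le_iSup_of_le h2 le_rfl)))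

theorem chi_ne_top (t d ℓ : ℕ) : chiSup t d ℓ ≠ ⊤ := by
  obtain ⟨C, _, D, h⟩ := partB t ℓ
  intro h1
  have h2 := (chi_mono t ℓ (le_max_left d D)).trans (chi_le (h (max d D) (le_max_right _ _)))
  rw [h1, top_le_iff] at h2
  exact ENat.natCast_ne_top _ h2

theorem le_chi {t ℓ d : ℕ} {B : ℝ} (h : LowerGood t ℓ d B) : B ≤ ((chiSup t d ℓ).toNat : ℝ) := by
  obtain ⟨n, G, h1, h2, h3⟩ := h
  by_contra hB
  rw [not_le] at hB
  apply h3 _ hB
  have h4 : (Pw G t).chromaticNumber ≤ chiSup t d ℓ := by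
    rw [← power_eq]
    unfold chiSup
    exact le_iSup_of_le n (le_iSup_of_le G (le_iSup_of_le h1 (le_iSup_of_le h2 le_rfl)))
  rw [← SimpleGraph.chromaticNumber_le_iff_colorable]
  rwa [ENat.natCast_toNat (chi_ne_top t d ℓ)]

theorem chi_toNat_le {t ℓ d : ℕ} {B : ℝ} (hB : 0 ≤ B) (h : UpperGood t ℓ d B) :
    ((chiSup t d ℓ).toNat : ℝ) ≤ B := by
  have h1 := chi_le h
  rw [← ENat.natCast_toNat (chi_ne_top t d ℓ)] at h1
  have h2 : (chiSup t d ℓ).toNat ≤ ⌊B⌋₊ := by exact_mod_cast h1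
  calc ((chiSup t d ℓ).toNat : ℝ) ≤ (⌊B⌋₊ : ℝ) := by exact_mod_cast h2
    _ ≤ B := Nat.floor_le hB

theorem isTheta {t ℓ : ℕ} {f : ℕ → ℝ} (hf : ∀ᶠ d : ℕ in atTop, 0 ≤ f d)
    (h1 : ∃ c : ℝ, 0 < c ∧ ∃ D : ℕ, ∀ d : ℕ, D ≤ d → LowerGood t ℓ d (c * f d))
    (h2 : ∃ C : ℝ, 0 < C ∧ ∃ D : ℕ, ∀ d : ℕ, D ≤ d → UpperGood t ℓ d (C * f d)) :
    (fun d : ℕ => ((chiSup t d ℓ).toNat : ℝ)) =Θ[atTop] f := by
  obtain ⟨c, hc, D1, h1⟩ := h1
  obtain ⟨C, hC, D2, h2⟩ := h2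
  constructor
  · refine IsBigO.of_bound C ?_
    filter_upwards [hf, eventually_ge_atTop D2] with d hd hd2
    rw [Real.norm_of_nonneg (by positivity), Real.norm_of_nonneg hd]
    exact chi_toNat_le (by positivity) (h2 d hd2)
  · refine IsBigO.of_bound c⁻¹ ?_
    filter_upwards [hf, eventually_ge_atTop D1] with d hd hd2
    rw [Real.norm_of_nonneg hd, Real.norm_of_nonneg (by positivity)]
    have := le_chi (h1 d hd2)
    rw [inv_mul_eq_div, le_div_iff₀ hc, mul_comm]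
    exact this

theorem main (t : ℕ) (ht : Odd t) (ℓ : ℕ) (hℓ : Odd ℓ) (h3 : 3 ≤ ℓ) :
    (ℓ < 3 * t → (fun d : ℕ => ((chiSup t d ℓ).toNat : ℝ)) =Θ[atTop] fun d : ℕ => (d : ℝ) ^ t) ∧
    (3 * t ≤ ℓ → (fun d : ℕ => ((chiSup t d ℓ).toNat : ℝ)) =Θ[atTop]
      fun d : ℕ => (d : ℝ) ^ t / Real.log d) := by
  have ht1 : 1 ≤ t := ht.pos
  constructor
  · intro hlt
    have ht3 : 3 ≤ t := by
      obtain ⟨m, hm⟩ := ht
      omega
    exact isTheta (Filter.Eventually.of_forall fun d => by positivity)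
      (Dense.partA t ℓ ht ht3 hℓ hlt) (partB t ℓ)
  · intro hle
    refine isTheta ?_ ?_ ?_
    · filter_upwards [eventually_ge_atTop 1] with d hd
      have : 0 ≤ Real.log (d : ℝ) := Real.log_nonneg (by exact_mod_cast hd)
      positivity
    · obtain ⟨c, hc, D, h⟩ := partD t ℓ ht hℓ
      exact ⟨c, hc, D, fun d hd => by rw [← mul_div_assoc]; exact h d hd⟩
    · obtain ⟨m, hm⟩ := ht
      obtain ⟨k, hk⟩ := hℓ
      have h := partC (t - 1) ((ℓ - 3 * t) / 2)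
      have e1 : t - 1 + 1 = t := by omega
      have e2 : 3 * t + 2 * ((ℓ - 3 * t) / 2) = ℓ := by omega
      rw [e1, e2] at h
      obtain ⟨C, hC, D, h⟩ := h
      exact ⟨C, hC, D, fun d hd => by rw [← mul_div_assoc]; exact h d hd⟩

end Pool.Agent.DCI
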